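import Pool.Agent.WR2.StmtsC

/-!
# Squad WR2, row TBK
-/

set_option autoImplicit false

namespace Pool.Agent.WR2.H38

open Pool.Agent.WIR
open scoped BigOperators ENNReal

private theorem tbk_av_mono {N : ℕ} {f g : ℕ → ℝ} (h : ∀ m, 0 < m → f m ≤ g m) :
    av N f ≤ av N g := by
  unfold av
  refine div_le_div_of_nonneg_right ?_ (by positivity)
  exact Finset.sum_le_sum fun m hm => h m (Finset.mem_Icc.1 hm).1

private theorem tbk_av_add (N : ℕ) (f g : ℕ → ℝ) :
    av N (fun m => f m + g m) = av N f + av N g := by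
  unfold av
  rw [Finset.sum_add_distrib, add_div]

private theorem tbk_av_sum (N : ℕ) (S : Finset ℕ) (c : ℕ → ℝ) (F : ℕ → ℕ → ℝ) :
    av N (fun m => ∑ l ∈ S, c l * F l m) = ∑ l ∈ S, c l * av N (F l) := by
  unfold av
  rw [Finset.sum_comm, Finset.sum_div]
  refine Finset.sum_congr rfl fun l _ => ?_
  rw [← Finset.mul_sum, mul_div_assoc]

private theorem tbk_ps_nonneg {t l a : ℕ} {f : ℕ → ℝ} (hf : ∀ m, 0 ≤ f m) : 0 ≤ PS t l f a :=
  Finset.sum_nonneg fun b _ => hf b

/-- The numbers of odd steps which are not typical. -/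
private def tbkS (s : ℕ) : Finset ℕ := (Finset.range (s + 1)).filter (fun l => l ∉ WS s)

private theorem tbk_tail (hHOE : HoeStmt) (s : ℕ) :
    ∑ l ∈ tbkS s, (s.choose l : ℝ) / 2 ^ s ≤ 2 * Real.exp (-((s : ℝ) / 2000000)) := by
  rcases Nat.eq_zero_or_pos s with rfl | hs
  · have h : tbkS 0 = ∅ := by
      unfold tbkS
      rw [Finset.filter_eq_empty_iff]
      intro l hl h
      apply h
      unfold WS
      rw [Finset.mem_filter]
      have := Finset.mem_range.1 hl
      exact ⟨hl, by omega, by omega⟩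
    rw [h, Finset.sum_empty]
    positivity
  · have hs' : (0 : ℝ) < s := by exact_mod_cast hs
    obtain ⟨h1, h2⟩ := hHOE s ((s : ℝ) / 1000) hs (by positivity)
    have he : ((s : ℝ) / 1000) ^ 2 / (2 * s) = (s : ℝ) / 2000000 := by
      field_simp
      norm_num
    rw [he] at h1 h2
    have hsub : tbkS s ⊆
        (Finset.range (s + 1)).filter (fun r : ℕ => (s : ℝ) / 1000 ≤ 2 * (r : ℝ) - s) ∪
        (Finset.range (s + 1)).filter (fun r : ℕ => (s : ℝ) / 1000 ≤ (s : ℝ) - 2 * r) := by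
      intro l hl
      unfold tbkS at hl
      rw [Finset.mem_filter] at hl
      obtain ⟨hl1, hl2⟩ := hl
      unfold WS at hl2
      rw [Finset.mem_filter, not_and_or, not_and_or] at hl2
      rw [Finset.mem_union, Finset.mem_filter, Finset.mem_filter]
      rcases hl2 with h | h | h
      · exact absurd hl1 h
      · right
        refine ⟨hl1, ?_⟩
        have h3 : 2000 * l < 999 * s := by omega
        have h4 : 2000 * (l : ℝ) < 999 * s := by exact_mod_cast h3
        linarith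
      · left
        refine ⟨hl1, ?_⟩
        have h3 : 1001 * s < 2000 * l := by omega
        have h4 : 1001 * (s : ℝ) < 2000 * l := by exact_mod_cast h3
        linarith
    have h3 : ∑ l ∈ tbkS s, (s.choose l : ℝ) ≤
        2 ^ s * (2 * Real.exp (-((s : ℝ) / 2000000))) := by
      refine (Finset.sum_le_sum_of_subset_of_nonneg hsub
        (fun _ _ _ => Nat.cast_nonneg _)).trans ?_
      have h4 := Finset.sum_union_inter
        (s₁ := (Finset.range (s + 1)).filter (fun r : ℕ => (s : ℝ) / 1000 ≤ 2 * (r : ℝ) - s))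
        (s₂ := (Finset.range (s + 1)).filter (fun r : ℕ => (s : ℝ) / 1000 ≤ (s : ℝ) - 2 * r))
        (f := fun l : ℕ => (s.choose l : ℝ))
      have h5 : (0 : ℝ) ≤ ∑ l ∈
          (Finset.range (s + 1)).filter (fun r : ℕ => (s : ℝ) / 1000 ≤ 2 * (r : ℝ) - s) ∩
          (Finset.range (s + 1)).filter (fun r : ℕ => (s : ℝ) / 1000 ≤ (s : ℝ) - 2 * r),
          (s.choose l : ℝ) := Finset.sum_nonneg fun _ _ => Nat.cast_nonneg _
      linarith
    rw [← Finset.sum_div, div_le_iff₀ (by positivity), mul_comm]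
    exact h3

/-- Row TBK. -/
theorem tbk (hAVA : AvaStmt) (hLVM : LvmStmt) (hLOP : LopStmt) (hWRB : WrbStmt)
    (hVRB : VrbStmt) (hITR : ItrStmt) (hHOE : HoeStmt) : TbkStmt := by
  intro A
  obtain ⟨C₁, hC₁, h1⟩ := hVRB.2 A
  obtain ⟨C₂, hC₂, h2⟩ := hITR A
  refine ⟨C₁ + C₂, by linarith, ?_⟩
  intro r r' s N hrr hrN hWS
  have hwr := hWRB.1
  have hLvr := hWRB.2.1
  have hava := hAVA.1
  have hlv : Lv N (fun m => max 0 (wr r m - Tht s r' m)) := by
    have e1 : Lv N (wr r) := (hava r N _ (hLvr r).1 (hrr.trans hrN)).1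
    have e2 : ∀ l ∈ WS s, Lv N (PS s l (wr r')) := by
      intro l hl
      refine (hava (r' + l) N _ (hLVM s l r' _ (hLvr r').1).1 ?_).1
      have := hWS l hl
      omega
    intro m hm
    change max 0 (wr r (m + 3 ^ N) - Tht s r' (m + 3 ^ N)) = max 0 (wr r m - Tht s r' m)
    have e3 : Tht s r' (m + 3 ^ N) = Tht s r' m := by
      unfold Tht AO
      exact Finset.sum_congr rfl fun l hl => by rw [e2 l hl m hm]
    rw [e1 m hm, e3]
  refine ⟨hlv, ?_⟩
  set N' := max N (r' + s) with hN'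
  have hNN' : N ≤ N' := le_max_left _ _
  have hrs : r' + s ≤ N' := le_max_right _ _
  rw [← (hava N N' _ hlv hNN').2]
  obtain ⟨hV1, hV2⟩ := h1 r r' hrr
  obtain ⟨hI1, hI2⟩ := h2 r' s
  have hIlv : Lv (r' + s) (fun m => |(Lop^[s] (wr r')) m - wr r' m|) := by
    intro m hm
    have e1 : Lv (r' + s) (wr r') := (hava r' (r' + s) _ (hLvr r').1 (by omega)).1
    change |(Lop^[s] (wr r')) (m + 3 ^ (r' + s)) - wr r' (m + 3 ^ (r' + s))| = _
    rw [hI1 m hm, e1 m hm]
  -- pointwise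
  have hpt : ∀ m, 0 < m → max 0 (wr r m - Tht s r' m) ≤
      (VR r r' m + |(Lop^[s] (wr r')) m - wr r' m|) +
        ∑ l ∈ tbkS s, (3 ^ l / 2 ^ s : ℝ) * PS s l (wr r') m := by
    intro m hm
    have e1 := hVRB.1 r r' r' m hrr le_rfl
    have e2 := hLOP.2 s (wr r') m hm
    have e3 : ∑ l ∈ Finset.range (s + 1), (3 ^ l / 2 ^ s : ℝ) * PS s l (wr r') m =
        Tht s r' m + ∑ l ∈ tbkS s, (3 ^ l / 2 ^ s : ℝ) * PS s l (wr r') m := by
      rw [← Finset.sum_filter_add_sum_filter_not (Finset.range (s + 1)) (fun l => l ∈ WS s)]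
      unfold Tht AO tbkS
      congr 1
      refine Finset.sum_congr ?_ fun _ _ => rfl
      ext l
      rw [Finset.mem_filter]
      constructor
      · exact fun h => h.2
      · intro h
        refine ⟨?_, h⟩
        unfold WS at h
        exact (Finset.mem_filter.1 h).1
    rw [e3] at e2
    have e4 : 0 ≤ ∑ l ∈ tbkS s, (3 ^ l / 2 ^ s : ℝ) * PS s l (wr r') m :=
      Finset.sum_nonneg fun l _ => mul_nonneg (by positivity) (tbk_ps_nonneg (hwr r'))
    have e5 := abs_nonneg (wr r' m - wr r m)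
    have e6 := abs_nonneg ((Lop^[s] (wr r')) m - wr r' m)
    refine max_le (by linarith) ?_
    have e7 := neg_abs_le (wr r' m - wr r m)
    have e8 := neg_abs_le ((Lop^[s] (wr r')) m - wr r' m)
    linarith
  refine (tbk_av_mono hpt).trans ?_
  rw [tbk_av_add, tbk_av_add, tbk_av_sum]
  have hA1 : av N' (VR r r') ≤ C₁ / ((r : ℝ) + 1) ^ A := by
    rw [(hava r' N' _ hV1 (hrN.trans hNN')).2]
    exact hV2
  have hr0 : (0 : ℝ) ≤ (r : ℝ) := Nat.cast_nonneg _
  have hrr' : (r : ℝ) ≤ (r' : ℝ) := by exact_mod_cast hrr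
  have hpow : ((r : ℝ) + 1) ^ A ≤ ((r' : ℝ) + 1) ^ A :=
    pow_le_pow_left₀ (by linarith) (by linarith) A
  have hpos : (0 : ℝ) < ((r : ℝ) + 1) ^ A := by positivity
  have hs0 : (0 : ℝ) ≤ (s : ℝ) := Nat.cast_nonneg _
  have hA2 : av N' (fun m => |(Lop^[s] (wr r')) m - wr r' m|) ≤ s * C₂ / ((r : ℝ) + 1) ^ A := by
    rw [(hava (r' + s) N' _ hIlv hrs).2]
    refine hI2.trans (div_le_div_of_nonneg_left ?_ hpos hpow)
    exact mul_nonneg hs0 (by linarith)
  have hA3 : ∑ l ∈ tbkS s, (3 ^ l / 2 ^ s : ℝ) * av N' (PS s l (wr r')) ≤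
      2 * Real.exp (-((s : ℝ) / 2000000)) := by
    refine le_trans (Finset.sum_le_sum fun l hl => ?_) (tbk_tail hHOE s)
    have hls : l ≤ s := by
      unfold tbkS at hl
      have := Finset.mem_range.1 (Finset.mem_filter.1 hl).1
      omega
    obtain ⟨e1, e2⟩ := hLVM s l r' _ (hLvr r').1
    rw [(hava (r' + l) N' _ e1 (by omega)).2, e2]
    have e3 : (3 ^ l / 2 ^ s : ℝ) * ((s.choose l : ℝ) / 3 ^ l * av r' (wr r')) =
        (s.choose l : ℝ) / 2 ^ s * av r' (wr r') := by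
      field_simp
    rw [e3]
    exact mul_le_of_le_one_right (by positivity) (hLvr r').2
  have hfin : C₁ / ((r : ℝ) + 1) ^ A + s * C₂ / ((r : ℝ) + 1) ^ A ≤
      (C₁ + C₂) * (s + 1) / ((r : ℝ) + 1) ^ A := by
    rw [← add_div]
    refine div_le_div_of_nonneg_right ?_ hpos.le
    nlinarith
  calc av N' (VR r r') + av N' (fun m => |(Lop^[s] (wr r')) m - wr r' m|) +
        ∑ l ∈ tbkS s, (3 ^ l / 2 ^ s : ℝ) * av N' (PS s l (wr r'))
      ≤ C₁ / ((r : ℝ) + 1) ^ A + s * C₂ / ((r : ℝ) + 1) ^ A +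
        2 * Real.exp (-((s : ℝ) / 2000000)) := add_le_add (add_le_add hA1 hA2) hA3
    _ ≤ _ := add_le_add hfin le_rfl

end Pool.Agent.WR2.H38
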